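import Mathlib
import Pool.Agent.H44.Cox.Main

set_option autoImplicit false

namespace Pool.Agent.Results.MP_562155_al.BoundAttained

open CoxeterSystem

/-- Let `(W, S)` be a Coxeter system with `S` finite and let `φ` be a bounded weight function on it.
Then the supremum of `φ` over `W` is attained on a finite standard parabolic subgroup. -/
theorem result {B W : Type*} [Finite B] [Group W] {M : CoxeterMatrix B} (cs : CoxeterSystem M W)
    (φ : W → ℝ)
    (hφ : ∀ g h : W, cs.length (g * h) = cs.length g + cs.length h → φ (g * h) = φ g + φ h)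
    (hbdd : BddAbove (Set.range φ)) :
    ∃ J : Set B, ((Subgroup.closure (cs.simple '' J) : Subgroup W) : Set W).Finite ∧
      ∃ x ∈ Subgroup.closure (cs.simple '' J), φ x = ⨆ w : W, φ w := by
  classical
  haveI : Fintype B := Fintype.ofFinite B
  obtain ⟨C, hC⟩ := hbdd
  obtain ⟨L, hL, x, hx, hmax⟩ := Pool.Agent.H44.Cox.main_theorem (cs := cs) φ hφ C
    (fun w => hC ⟨w, rfl⟩)
  refine ⟨(L : Set B), hL, x, hx, le_antisymm ?_ (ciSup_le hmax)⟩
  exact le_ciSup ⟨C, hC⟩ x

end Pool.Agent.Results.MP_562155_al.BoundAttained
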